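import Pool.Agent.H752.GM.Defs
import Pool.Agent.H620R2.GaugeR.Base

/-!
# Auxiliary notions
-/

namespace Pool.Agent.H752.GM

open Pool.Agent.NPC Pool.Agent.H620R2.Gauge Finset H568R2

/-- the marker number `i` of the input `x` -/
def mkS (x : List Bool) (i : ℕ) : List Bool := pairBits x (List.replicate (kk x + 2 + i) false)

/-- the number of markers -/
def nm (x : List Bool) : ℕ := 3 * x.length + 10

/-- the input `x` is marked -/
def Marked (A : Oracle) (x : List Bool) : Prop := ∀ i < nm x, A (mkS x i) = true

/-- the block and the markers of `x` -/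
def blk (x : List Bool) : Set (List Bool) :=
  {y | (∃ v : List Bool, v.length = kk x + 1 ∧ y = pairBits x v) ∨ ∃ i < nm x, y = mkS x i}

/-- the language for `ZPP` -/
def zLang (A : Oracle) : Set (List Bool) :=
  {x | Marked A x ∧ ∃ w : List Bool, w.length = kk x ∧ A (pairBits x (true :: w)) = true}

/-- the promise: at least half of the strings `w` are certificates for the answer `b`, and none is a
certificate for the answer `!b` -/
def ZGood (A : Oracle) (x : List Bool) (b : Bool) : Prop :=
  2 ^ kk x ≤ 2 * Nat.card {w : Fin (kk x) → Bool // A (pairBits x (b :: List.ofFn w)) = true} ∧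
    ∀ w : List Bool, w.length = kk x → A (pairBits x ((!b) :: w)) = false

/-- the rows of the block of `x` are given by the strings of this length -/
def kr (x : List Bool) : ℕ := (kk x + 1) / 2

/-- the columns of the block of `x` are given by the strings of this length -/
def kw (x : List Bool) : ℕ := kk x + 1 - kr x

/-- the row `r` of the block of `x` contains a one -/
def RowGood (A : Oracle) (x r : List Bool) : Prop :=
  ∃ w : List Bool, w.length = kw x ∧ A (pairBits x (r ++ w)) = true

/-- the language for `AM` -/
def amLang (A : Oracle) : Set (List Bool) :=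
  {x | Marked A x ∧ ∀ r : List Bool, r.length = kr x → RowGood A x r}

/-- the promise: all rows are good or at most a third of them is -/
def AMGood (A : Oracle) (x : List Bool) : Prop :=
  (∀ r : List Bool, r.length = kr x → RowGood A x r) ∨
    3 * Nat.card {r : Fin (kr x) → Bool // RowGood A x (List.ofFn r)} ≤ 2 ^ kr x

open Classical in
/-- the probability that `M` with oracle `A` accepts `⟨r, ⟨y, x⟩⟩`, times `2 ^ m` -/
noncomputable def accN (M : Alg) (A : Oracle) (m : ℕ) (y x : List Bool) : ℕ :=
  Nat.card {r : Fin m → Bool // M.out A (pairBits (List.ofFn r) (pairBits y x)) = some [true]}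

/-- the verifier `M` with parameter `m` gives the right answer on `x` for the language `L` -/
def MACorrect (M : Alg) (A : Oracle) (m : ℕ) (x : List Bool) (L : Set (List Bool)) : Prop :=
  (x ∈ L → ∃ y : List Bool, y.length ≤ m ∧ 2 * 2 ^ m ≤ 3 * accN M A m y x) ∧
  (x ∉ L → ∀ y : List Bool, y.length ≤ m → 3 * accN M A m y x ≤ 2 ^ m)

/-- the `i`-th sample string of length `m` for the inputs of length `n` at the level `l` -/
def smpl (A : Oracle) (l n m i : ℕ) : List Bool :=
  (List.range m).map fun t => A (smp l n (i * m + t))

end Pool.Agent.H752.GM
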