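import Pool.Agent.H620R2.GaugeX.Defs

/-!
# Merlin–Arthur and Arthur–Merlin games, sparse complete sets and distillation relative to an oracle

(Continues `Pool.Agent.H620R2.Gauge.Defs`, `Gauge2.Defs`, `GaugeR.Defs` and `GaugeX.Defs`.)
-/

namespace Pool.Agent.H752.GM

open Pool.Agent.NPC Pool.Agent.H620R2.Gauge

/-- The language `L` is in `MA` relative to `A`: if `x` is in `L`, then for some `y` the verifier
accepts with probability at least `2/3`, otherwise it accepts with probability at most `1/3` for
every `y`. -/
def IsMA (A : Oracle) (L : Set (List Bool)) : Prop :=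
  ∃ (V : List Bool → List Bool) (p : Polynomial ℕ), IsFP A V ∧ ∀ x,
    (x ∈ L → ∃ y : List Bool, y.length ≤ p.eval x.length ∧
      2 / 3 ≤ accPr V (p.eval x.length) (pairBits y x)) ∧
    (x ∉ L → ∀ y : List Bool, y.length ≤ p.eval x.length →
      accPr V (p.eval x.length) (pairBits y x) ≤ 1 / 3)

/-- The probability that for a uniformly random string `r` of length `m` there is a `y` of length
at most `m` such that `V` accepts `⟨r, ⟨y, x⟩⟩`. -/
noncomputable def exPr (V : List Bool → List Bool) (m : ℕ) (x : List Bool) : ℝ :=
  (Nat.card {r : Fin m → Bool // ∃ y : List Bool, y.length ≤ m ∧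
    V (pairBits (List.ofFn r) (pairBits y x)) = [true]} : ℝ) / 2 ^ m

/-- The language `L` is in `AM` relative to `A`. -/
def IsAM (A : Oracle) (L : Set (List Bool)) : Prop :=
  ∃ (V : List Bool → List Bool) (p : Polynomial ℕ), IsFP A V ∧ ∀ x,
    (x ∈ L → 2 / 3 ≤ exPr V (p.eval x.length) x) ∧
    (x ∉ L → exPr V (p.eval x.length) x ≤ 1 / 3)

/-- The language `L` is in `AM` relative to `A` with perfect completeness: if `x` is in `L`, then
for every `r` there is a `y` such that the verifier accepts, otherwise this has probability at
most `1/2`. -/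
def IsAM1 (A : Oracle) (L : Set (List Bool)) : Prop :=
  ∃ (V : List Bool → List Bool) (p : Polynomial ℕ), IsFP A V ∧ ∀ x,
    (x ∈ L → exPr V (p.eval x.length) x = 1) ∧
    (x ∉ L → exPr V (p.eval x.length) x ≤ 1 / 2)

/-- The language `S` is sparse. -/
def Sparse (S : Set (List Bool)) : Prop :=
  ∃ p : Polynomial ℕ, ∀ n : ℕ, ({x | x ∈ S ∧ x.length ≤ n} : Set (List Bool)).ncard ≤ p.eval n

open Classical in
/-- The oracle which answers questions to `A` (first bit `0`) and to `S` (first bit `1`). -/
noncomputable def join (A : Oracle) (S : Set (List Bool)) : Oracle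
  | [] => false
  | false :: y => A y
  | true :: y => decide (y ∈ S)

/-- The language `S` is complete for `NP` relative to `A` under Turing (Cook) reductions. -/
def CookComplete (A : Oracle) (S : Set (List Bool)) : Prop :=
  IsNP A S ∧ ∀ L, IsNP A L → IsP (join A S) L

/-- The language `R` is complete for `NP` relative to `A` under many-one reductions computable in
polynomial time relative to `A`. -/
def NPComplete (A : Oracle) (R : Set (List Bool)) : Prop :=
  IsNP A R ∧ ∀ L, IsNP A L → ∃ g, IsFP A g ∧ ∀ x, x ∈ L ↔ g x ∈ R

/-- a finite sequence of strings, coded as a string -/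
def lst : List (List Bool) → List Bool
  | [] => []
  | x :: xs => true :: pairBits x (lst xs)

/-- The language `R` has an OR-distillation algorithm (working in polynomial time relative to
`A`): it maps a finite sequence of strings of length at most `n` to a string of length at most
`q(n)` which is in `R` if and only if one of the strings is. -/
def Distillable (A : Oracle) (R : Set (List Bool)) : Prop :=
  ∃ (D : List Bool → List Bool) (q : Polynomial ℕ), IsFP A D ∧
    ∀ xs : List (List Bool), xs ≠ [] → (D (lst xs) ∈ R ↔ ∃ x ∈ xs, x ∈ R) ∧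
      ∀ n, (∀ x ∈ xs, x.length ≤ n) → (D (lst xs)).length ≤ q.eval n

end Pool.Agent.H752.GM
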