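import Pool.Agent.H752.GM.Stubs
import Pool.Agent.H620R2.GaugeX.KeyX
import Pool.Agent.H620R2.GaugeR.EventR
import Pool.Agent.H620R2.GaugeR.R5
import Pool.Agent.H620R2.GaugeX.X7
import Pool.Agent.H620R2.Gauge2.Trans
import Pool.Agent.H620R2.Gauge.NonNull
import Pool.Agent.H620R2.Gauge2.V7

/-!
# Assembly
-/

namespace Pool.Agent.H752.GM

open Pool.Agent.NPC Pool.Agent.H620R2.Gauge Filter

/-- Result Z. -/
theorem final_zpp (h : St_zpp) (f : ℕ → ℝ) (O : Set Oracle)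
    (h1 : {A : Oracle | ∃ L, IsRP A L ∧ IsRP A Lᶜ ∧ ¬ IsP A L} ⊆ O)
    (h2 : O ⊆ {A : Oracle | ∃ L, IsRP A L ∧ ¬ IsP A L}) :
    Null f O ↔ ∃ C : ℕ, ∀ᶠ N : ℕ in atTop, ∃ N' ≥ N, f N' ≤ (Real.logb 2 N) ^ C := by
  constructor
  · intro hn
    by_contra hcon
    exact h f hcon (hn.mono h1)
  · exact fun hf => (nullR hf).mono h2

/-- Result M. -/
theorem final_ma (h : St_ma) (hn : St_nullAM) (f : ℕ → ℝ) (O : Set Oracle)
    (h1 : {A : Oracle | ∃ L, IsAM A L ∧ ¬ IsMA A L} ⊆ O)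
    (h2 : O ⊆ {A : Oracle | ∃ L, IsAM A L ∧ ¬ IsNP A L}) :
    Null f O ↔ ∃ C : ℕ, ∀ᶠ N : ℕ in atTop, ∃ N' ≥ N, f N' ≤ (Real.logb 2 N) ^ C := by
  constructor
  · intro hO
    by_contra hcon
    exact h f hcon (hO.mono h1)
  · exact fun hf => (hn f hf).mono h2

theorem ma_sub (hi : St_incl) : {A : Oracle | ∃ L, IsAM A L ∧ ¬ IsMA A L} ⊆
    {A : Oracle | ∃ L, IsAM A L ∧ ¬ IsNP A L} :=
  fun A ⟨L, h1, h2⟩ => ⟨L, h1, fun h => h2 (hi.1 A L h)⟩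

/-- Result C. -/
theorem final_am (ha : St_amadv) (f : ℕ → ℝ) (O : Set Oracle)
    (h1 : ∀ A : Oracle, (∀ L, IsEXP A L ∨ IsPSPACE A L → IsZPP A L) →
      (∃ L, IsZPP A L ∧ ¬ IsP A L) → A ∈ O)
    (h2 : ∀ A ∈ O, ∀ L, IsNP A L → IsAM A Lᶜ) :
    Null f O ↔
      ∀ ε : ℝ, 0 < ε → ∃ᶠ N : ℕ in atTop, f N ≤ 2 ^ (Real.logb 2 N) ^ ε :=
  keyX f O h1 fun A hA => Or.inl fun L hL => ha A _ (h2 A hA L hL)

theorem conp_am1 (hi : St_incl) {A : Oracle} (h : ∀ L, IsEXP A L ∨ IsPSPACE A L → IsZPP A L) :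
    ∀ L, IsNP A L → IsAM1 A Lᶜ := fun L hL =>
  hi.2.1 A _ (h Lᶜ (Or.inr (IsPSPACE.compl (IsNP.isPSPACE hL)))).isNP

/-- Result S. -/
theorem final_sparse (hs : St_sparseP) (f : ℕ → ℝ) (O : Set Oracle)
    (h1 : ∀ A : Oracle, (∀ L, IsEXP A L ∨ IsPSPACE A L → IsZPP A L) →
      (∃ L, IsZPP A L ∧ ¬ IsP A L) → A ∈ O)
    (h2 : ∀ A ∈ O, ∃ S, Sparse S ∧ ∀ L, IsNP A L → IsP (join A S) L) :
    Null f O ↔
      ∀ ε : ℝ, 0 < ε → ∃ᶠ N : ℕ in atTop, f N ≤ 2 ^ (Real.logb 2 N) ^ ε := by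
  refine keyX f O h1 fun A hA => Or.inl fun L hL => ?_
  obtain ⟨S, hS, h⟩ := h2 A hA
  exact (hs A S L hS (h L hL)).compl_np

/-- the criterion for sets of oracles containing those with `P = PSPACE` -/
theorem keyP (f : ℕ → ℝ) (O : Set Oracle)
    (h1 : ∀ A : Oracle, (∀ L, IsPSPACE A L → IsP A L) → A ∈ O)
    (h2 : Cond f → Null f O) :
    Null f O ↔
      ∀ ε : ℝ, 0 < ε → ∃ᶠ N : ℕ in atTop, f N ≤ 2 ^ (Real.logb 2 N) ^ ε := by
  constructor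
  · intro hn ε hε
    by_contra hcon
    rw [not_frequently] at hcon
    refine not_null f ε hε (hcon.mono fun N h => not_le.1 h) O (fun A hA => h1 A ?_) hn
    intro L hL
    exact isP_of_reduces (hA L hL)
  · exact h2

/-- Result D. -/
theorem final_distill (hd : St_distill) (f : ℕ → ℝ) (O : Set Oracle)
    (h1 : ∀ A : Oracle, (∀ L, IsPSPACE A L → IsP A L) → A ∈ O)
    (h2 : ∀ A ∈ O, ∃ R, NPComplete A R ∧ Distillable A R) :
    Null f O ↔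
      ∀ ε : ℝ, 0 < ε → ∃ᶠ N : ℕ in atTop, f N ≤ 2 ^ (Real.logb 2 N) ^ ε := by
  refine keyP f O h1 fun hf => nullN hf _ fun A hA => ?_
  obtain ⟨R, hR, hD⟩ := h2 A hA
  exact hd A R hR hD _ (hitLang_np A)

theorem cond_pow (k c : ℕ) (hk : 1 ≤ k) :
    ∀ᶠ n : ℕ in atTop, n ^ k + n / 2 + c * Nat.log 2 n + c ≤ n ^ (k + 1) := by
  filter_upwards [eventually_ge_atTop (2 * c + 4)] with n hn
  have h1 : Nat.log 2 n ≤ n := Nat.log_le_self 2 n
  have h2 : n ≤ n ^ k := Nat.le_self_pow (by omega) n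
  have h3 : c * Nat.log 2 n ≤ c * n ^ k := Nat.mul_le_mul_left c (h1.trans h2)
  have h4 : (2 * c + 4) * n ^ k ≤ n ^ (k + 1) := by
    rw [pow_succ, mul_comm]
    exact Nat.mul_le_mul_left _ hn
  have h5 : c ≤ c * n ^ k := Nat.le_mul_of_pos_right c (Nat.pow_pos (by omega))
  have h6 : n / 2 ≤ n ^ k := (Nat.div_le_self n 2).trans h2
  nlinarith

theorem cond_log (c : ℕ) :
    ∀ᶠ n : ℕ in atTop, Nat.clog 2 n + n / 2 + c * Nat.log 2 n + c ≤ n ^ (0 + 1) := by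
  have h1 : ∀ᶠ n : ℕ in atTop, (4 * c + 4) * (Nat.log 2 n + 1) ≤ n := by
    have h := tendsto_pow_const_div_const_pow_of_one_lt 1 (r := (2 : ℝ)) (by norm_num)
    have h2 : ∀ᶠ m : ℕ in atTop, (4 * c + 4) * (m + 1) ≤ 2 ^ m := by
      have h0 : (0 : ℝ) < 2 * (4 * (c : ℝ) + 4) := by positivity
      have h3 := (h.eventually (gt_mem_nhds (show (0 : ℝ) < 1 / (2 * (4 * (c : ℝ) + 4)) from
        div_pos one_pos h0)))
      filter_upwards [h3, eventually_ge_atTop 1] with m hm hm1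
      rw [pow_one, div_lt_div_iff₀ (by positivity) h0] at hm
      have h4 : ((4 * c + 4) * (m + 1) : ℝ) ≤ 2 ^ m := by
        have : (1 : ℝ) ≤ m := by exact_mod_cast hm1
        nlinarith
      exact_mod_cast h4
    obtain ⟨m₀, hm₀⟩ := eventually_atTop.1 h2
    filter_upwards [eventually_ge_atTop (2 ^ m₀)] with n hn
    have h5 : m₀ ≤ Nat.log 2 n := Nat.le_log_of_pow_le (by norm_num) hn
    have h6 := hm₀ _ h5
    exact h6.trans (Nat.pow_log_le_self 2 (by have := Nat.one_le_two_pow (n := m₀); omega))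
  filter_upwards [h1] with n hn
  have h7 : Nat.clog 2 n ≤ Nat.log 2 n + 1 := by
    apply Nat.clog_le_of_le_pow
    exact (Nat.lt_pow_succ_log_self (by norm_num) n).le
  rw [zero_add, pow_one]
  have h8 : 4 * (Nat.clog 2 n + c * Nat.log 2 n + c) ≤ (4 * c + 4) * (Nat.log 2 n + 1) := by
    nlinarith
  omega

/-- the oracles for which one of the inclusions of the chain is an equality -/
def ChainEq : Set Oracle :=
  {A | (∀ L, IsNPg (fun n => n) A L → IsNPg (Nat.clog 2) A L) ∨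
    ∃ k : ℕ, 1 ≤ k ∧ ∀ L, IsNPg (fun n => n ^ (k + 1)) A L → IsNPg (fun n => n ^ k) A L}

/-- Result T. -/
theorem final_chain (hn : St_nullT) (ht : St_tmem) (f : ℕ → ℝ) (O : Set Oracle)
    (h1 : ∀ A : Oracle, (∀ L, IsPSPACE A L → IsP A L) → A ∈ O) (h2 : O ⊆ ChainEq) :
    Null f O ↔
      ∀ ε : ℝ, 0 < ε → ∃ᶠ N : ℕ in atTop, f N ≤ 2 ^ (Real.logb 2 N) ^ ε := by
  refine keyP f O h1 fun hf => ?_
  have ha := hn f (Nat.clog 2) 0 hf fun c => cond_log c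
  have hb := null_iUnion (f := f) (fun k : ℕ => {A : Oracle | IsNPg (fun n => n ^ (k + 1)) A
    (tLang (k + 1) A)}) fun k => hn f _ (k + 1) hf fun c => cond_pow (k + 1) c (by omega)
  refine (null_union ha hb).mono fun A hA => ?_
  rcases h2 hA with h | ⟨k, hk, h⟩
  · left
    refine h _ ?_
    have := ht 0 A
    simpa using this
  · right
    rw [Set.mem_iUnion]
    obtain ⟨k, rfl⟩ : ∃ j, k = j + 1 := ⟨k - 1, by omega⟩
    exact ⟨k, h _ (ht (k + 1) A)⟩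

end Pool.Agent.H752.GM
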