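import Pool.Agent.H752.GM.Final
import Pool.Agent.H226R2.GM.T1
import Pool.Agent.H355R2.GM.NullT
import Pool.Agent.H640R2.GM.Tmem

/-! Bounded nondeterminism. -/

namespace Pool.Agent.H752.GM

open Pool.Agent.NPC Pool.Agent.H620R2.Gauge Filter

theorem IsP.isNPg {A : Oracle} {L : Set (List Bool)} (h : IsP A L) (g : ℕ → ℕ) : IsNPg g A L := by
  obtain ⟨V, hV, hL⟩ := h
  have h2 : Poly (fun z : List Bool => (unpair z).2) := Poly.snd poly_unpair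
  refine ⟨fun z => V (unpair z).2, hV.precomp h2, fun x => ?_⟩
  rw [hL x]
  constructor
  · intro h
    exact ⟨[], by simp, by show V (unpair (pairBits [] x)).2 = [true]; rw [unpair_pairBits]; exact h⟩
  · rintro ⟨w, _, hw⟩
    have hw' : V (unpair (pairBits w x)).2 = [true] := hw
    rw [unpair_pairBits] at hw'
    exact hw'

theorem IsNPg.isP {A : Oracle} (h : ∀ L, IsPSPACE A L → IsP A L) (k : ℕ) {L : Set (List Bool)}
    (hL : IsNPg (fun n => n ^ k) A L) : IsP A L := by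
  obtain ⟨V, hV, h'⟩ := hL
  refine h L (IsNP.isPSPACE ⟨V, Polynomial.X ^ k, hV, fun x => ?_⟩)
  simpa using h' x

theorem chain_all (f : ℕ → ℝ) (O : Set Oracle)
    (h1 : ∀ A : Oracle, (∀ L, IsPSPACE A L → IsP A L) → A ∈ O) (h2 : O ⊆ ChainEq) :
    Null f O ↔
      ∀ ε : ℝ, 0 < ε → ∃ᶠ N : ℕ in atTop, f N ≤ 2 ^ (Real.logb 2 N) ^ ε :=
  final_chain (t_nullT t_plant) t_tmem f O h1 h2

theorem chain_results (f : ℕ → ℝ) :
    (∀ O : Set Oracle, (∀ A : Oracle, (∀ L, IsPSPACE A L → IsP A L) → A ∈ O) → O ⊆ ChainEq →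
      (Null f O ↔
        ∀ ε : ℝ, 0 < ε → ∃ᶠ N : ℕ in atTop, f N ≤ 2 ^ (Real.logb 2 N) ^ ε)) ∧
    (∀ k : ℕ, 1 ≤ k → (Null f {A | ∀ L, IsNPg (fun n => n ^ (k + 1)) A L →
        IsNPg (fun n => n ^ k) A L} ↔
      ∀ ε : ℝ, 0 < ε → ∃ᶠ N : ℕ in atTop, f N ≤ 2 ^ (Real.logb 2 N) ^ ε)) ∧
    (Null f {A | ∀ L, IsNPg (fun n => n) A L → IsNPg (Nat.clog 2) A L} ↔
      ∀ ε : ℝ, 0 < ε → ∃ᶠ N : ℕ in atTop, f N ≤ 2 ^ (Real.logb 2 N) ^ ε) ∧
    (Null f ChainEq ↔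
      ∀ ε : ℝ, 0 < ε → ∃ᶠ N : ℕ in atTop, f N ≤ 2 ^ (Real.logb 2 N) ^ ε) := by
  have hlog : ∀ A : Oracle, (∀ L, IsPSPACE A L → IsP A L) →
      ∀ L, IsNPg (fun n => n) A L → IsNPg (Nat.clog 2) A L := by
    intro A hA L hL
    exact IsP.isNPg (IsNPg.isP hA 1 (by simpa using hL)) _
  refine ⟨fun O h1 h2 => chain_all f O h1 h2, fun k hk => chain_all f _ ?_ ?_,
    chain_all f _ ?_ ?_, chain_all f _ ?_ subset_rfl⟩
  · exact fun A hA L hL => IsP.isNPg (IsNPg.isP hA _ hL) _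
  · exact fun A hA => Or.inr ⟨k, hk, hA⟩
  · exact fun A hA => hlog A hA
  · exact fun A hA => Or.inl hA
  · exact fun A hA => Or.inl (hlog A hA)

end Pool.Agent.H752.GM
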