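import Pool.Agent.H752.GM.Base
import Pool.Agent.H620R2.Gauge.M

/-!
# Statements of the tasks (project GM)
-/

namespace Pool.Agent.H752.GM

open Pool.Agent.NPC Pool.Agent.H620R2.Gauge Finset H568R2 MeasureTheory

/-- M1: a verifier for `MA` can be fooled. -/
def St_adv : Prop := ∀ (R K Y Z : Type) (_ : Fintype R) (_ : Fintype K) (_ : Fintype Y)
    (_ : Fintype Z) (_ : Nonempty Z) (F : Y → Z → (R → K → Bool) → Bool) (q s : ℕ),
    (∀ y z a, ∃ Q : Finset (R × K), Q.card ≤ q ∧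
      ∀ a' : R → K → Bool, (∀ e ∈ Q, a' e.1 e.2 = a e.1 e.2) → F y z a' = F y z a) →
    Fintype.card Y ≤ 2 ^ s → 3 * s ≤ Fintype.card R → 2 * (6 * q + 1) ≤ Fintype.card K →
    ∃ a : R → K → Bool,
      ((∀ r, ∃ w, a r w = true) ∧
        ∀ y, 3 * Nat.card {z : Z // F y z a = true} < 2 * Fintype.card Z) ∨
      (3 * Nat.card {r : R // ∃ w, a r w = true} ≤ Fintype.card R ∧
        ∃ y, Fintype.card Z < 3 * Nat.card {z : Z // F y z a = true})

/-- M2: infinitely many requirements. -/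
def St_stage : Prop := ∀ (Bk : ℕ → Set (List Bool)) (Req : ℕ → Oracle → Prop) (b : ℕ → ℕ),
    (∀ i j, i < j → ∀ y ∈ Bk j, b i < y.length) → (∀ i j, i < j → Disjoint (Bk i) (Bk j)) →
    (∀ (j : ℕ) (A A' : Oracle), (∀ y : List Bool, y.length ≤ b j → A' y = A y) →
      Req j A → Req j A') →
    (∀ (j : ℕ) (A : Oracle), ∃ A' : Oracle, (∀ y ∉ Bk j, A' y = A y) ∧ Req j A') →
    ∃ Φ : Oracle → Oracle, ∀ B, (∀ y, (∀ j, y ∉ Bk j) → Φ B y = B y) ∧ ∀ j, Req j (Φ B)

/-- M3: with positive probability nothing is marked. -/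
def St_mark : Prop := 0 < ranO {B | ∀ x, ¬ Marked B x}

open Classical in
/-- M4: the choice of the inputs. -/
def St_seq : Prop := ∀ f : ℕ → ℝ, ¬ Cond1 f → ∀ P Q : ℕ → Polynomial ℕ,
    ∃ x : ℕ → List Bool, StrictMono (fun j => (x j).length) ∧
      (∀ j, 2 * (P j).eval (x j).length ≤ 2 ^ kk (x j)) ∧
      (∀ j, (Q j).eval (x j).length ≤ 2 * (x (j + 1)).length) ∧
      ∃ c : ℝ, ∀ N : ℕ, (((Finset.range N).filter
        (fun i => str i ∈ {y : List Bool | ∃ j, y ∈ blk (x j)})).card : ℝ) ≤ f N + c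

/-- M5: the language for `ZPP` is in `ZPP`. -/
def St_zmem : Prop := ∀ A : Oracle, (∀ x, Marked A x → ∃ b, ZGood A x b) →
    IsRP A (zLang A) ∧ IsRP A (zLang A)ᶜ

/-- the requirement for `ZPP` -/
def ReqZ (M : Alg) (A : Oracle) (x : List Bool) : Prop :=
  Marked A x ∧ (∃ b, ZGood A x b) ∧ ¬ (M.out A x = some [true] ↔ x ∈ zLang A)

/-- M6: a deterministic machine can be fooled. -/
def St_zmod : Prop := ∀ M : Alg, ∃ P Q : Polynomial ℕ, ∀ x : List Bool,
    (2 * P.eval x.length ≤ 2 ^ kk x →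
      ∀ A : Oracle, ∃ A' : Oracle, (∀ y ∉ blk x, A' y = A y) ∧ ReqZ M A' x) ∧
    ∀ A A' : Oracle, (∀ y : List Bool, y.length ≤ Q.eval x.length → A' y = A y) →
      ReqZ M A x → ReqZ M A' x

/-- M7: many oracles with `P ≠ ZPP` (from M2 - M6). -/
def St_zpp : Prop := ∀ f : ℕ → ℝ, ¬ Cond1 f →
    ¬ Null f {A : Oracle | ∃ L, IsRP A L ∧ IsRP A Lᶜ ∧ ¬ IsP A L}

/-- M8: the language for `AM` is in `AM`. -/
def St_ammem : Prop := ∀ A : Oracle, (∀ x, Marked A x → AMGood A x) → IsAM A (amLang A)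

/-- the requirement for `MA` -/
def ReqM (M : Alg) (p : Polynomial ℕ) (A : Oracle) (x : List Bool) : Prop :=
  Marked A x ∧ AMGood A x ∧ ¬ MACorrect M A (p.eval x.length) x (amLang A)

/-- M9: an `MA` machine can be fooled (from M1). -/
def St_ammod : Prop := ∀ (M : Alg) (p : Polynomial ℕ), ∃ P Q : Polynomial ℕ, ∀ x : List Bool,
    (2 * P.eval x.length ≤ 2 ^ kk x →
      ∀ A : Oracle, ∃ A' : Oracle, (∀ y ∉ blk x, A' y = A y) ∧ ReqM M p A' x) ∧
    ∀ A A' : Oracle, (∀ y : List Bool, y.length ≤ Q.eval x.length → A' y = A y) →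
      ReqM M p A x → ReqM M p A' x

/-- M10: many oracles with `MA ≠ AM` (from M2, M3, M4, M8, M9). -/
def St_ma : Prop := ∀ f : ℕ → ℝ, ¬ Cond1 f →
    ¬ Null f {A : Oracle | ∃ L, IsAM A L ∧ ¬ IsMA A L}

/-- M11: majority vote. -/
def St_vote : Prop := ∀ (I : Type) (_ : Fintype I) (_ : DecidableEq I) (p u : ℕ)
    (pos : Fin (2 * u) → Fin p → I) (F : (I → Bool) → (Fin p → Bool) → Bool),
    Function.Injective (fun q : Fin (2 * u) × Fin p => pos q.1 q.2) →
    (∀ a a' : I → Bool, (∀ e, (∀ i t, pos i t ≠ e) → a e = a' e) → F a = F a') →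
    ∀ E : (I → Bool) → Prop, (∀ a, E a →
      (2 * 2 ^ p ≤ 3 * Nat.card {w : Fin p → Bool // F a w = true} ∧
        Nat.card {i : Fin (2 * u) // F a (fun t => a (pos i t)) = true} < u) ∨
      (3 * Nat.card {w : Fin p → Bool // F a w = true} ≤ 2 ^ p ∧
        u ≤ Nat.card {i : Fin (2 * u) // F a (fun t => a (pos i t)) = true})) →
    open Classical in
    Ex unif (fun a : I → Bool => if E a then (1 : ℝ) else 0) ≤ (8 / 9) ^ u

/-- M12: sampling in `NP`. -/
def St_sampler : Prop := ∀ (A : Oracle) (V : List Bool → List Bool) (p l u : Polynomial ℕ)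
    (L : Set (List Bool)) (n₀ : ℕ), IsFP A V →
    (∀ x : List Bool, n₀ ≤ x.length → (x ∈ L ↔ u.eval x.length ≤
      Nat.card {i : Fin (2 * u.eval x.length) // ∃ y : List Bool, y.length ≤ p.eval x.length ∧
        V (pairBits (smpl A (l.eval x.length) x.length (p.eval x.length) i) (pairBits y x)) =
          [true]})) → IsNP A L

/-- M13: few oracles with `NP ≠ AM` (from M11, M12). -/
def St_nullAM : Prop := ∀ f : ℕ → ℝ, Cond1 f → Null f {A : Oracle | ∃ L, IsAM A L ∧ ¬ IsNP A L}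

/-- M14: inclusions. -/
def St_incl : Prop := (∀ A L, IsNP A L → IsMA A L) ∧ (∀ A L, IsNP A L → IsAM1 A L) ∧
    ∀ A L, IsAM1 A L → IsAM A L

/-- C: `AM` has nondeterministic circuits. -/
def St_amadv : Prop := ∀ A L, IsAM A L → WithAdvice (IsNP A) L

/-- S0: a complete set for `NP`. -/
def St_complete : Prop := ∀ A : Oracle, ∃ K : Set (List Bool), IsNP A K ∧
    ∀ L, IsNP A L → ∃ g, PolyTime g ∧ ∀ x, x ∈ L ↔ g x ∈ K

/-- S1: questions to a sparse set can be replaced by advice. -/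
def St_sparseP : Prop := ∀ (A : Oracle) (S L : Set (List Bool)), Sparse S → IsP (join A S) L →
    WithAdvice (IsP A) L

/-- S2: if `PSPACE = ZPP`, then there is a sparse Cook-complete set. -/
def St_sparseC : Prop := ∀ A : Oracle, (∀ L, IsPSPACE A L → IsZPP A L) →
    ∃ S, Sparse S ∧ CookComplete A S

/-- D1: the theorem of Fortnow and Santhanam relative to an oracle. -/
def St_distill : Prop := ∀ (A : Oracle) (R : Set (List Bool)), NPComplete A R →
    Distillable A R → ∀ L, IsNP A L → WithAdvice (IsNP A) Lᶜ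

/-- D2: if `P = NP`, then distillation is possible. -/
def St_distill_low : Prop := ∀ A : Oracle, (∀ L, IsNP A L → IsP A L) →
    ∃ R, NPComplete A R ∧ Distillable A R

/-- The language `L` is decided by a nondeterministic polynomial-time machine relative to `A`
which guesses at most `g(|x|)` bits. -/
def IsNPg (g : ℕ → ℕ) (A : Oracle) (L : Set (List Bool)) : Prop :=
  ∃ V : List Bool → List Bool, IsFP A V ∧
    ∀ x, x ∈ L ↔ ∃ w : List Bool, w.length ≤ g x.length ∧ V (pairBits w x) = [true]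

/-- the test language: `x` is in it if a slot `w` of length `|x| ^ (k + 1)` contains only ones -/
def tLang (k : ℕ) (A : Oracle) : Set (List Bool) :=
  {x | ∃ w : List Bool, w.length = x.length ^ (k + 1) ∧
    ∀ i < w.length, A (pairBits x (w ++ List.replicate i true)) = true}

/-- T1: functions with small certificates do not see a hit. -/
def St_plant : Prop := ∀ (I X : Type) (_ : Fintype I) (_ : DecidableEq I) (_ : Fintype X)
    (m q : ℕ) (pos : X → (Fin m → Bool) → Fin m → I) (Out : X → (I → Bool) → Bool),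
    Function.Injective (fun t : X × (Fin m → Bool) × Fin m => pos t.1 t.2.1 t.2.2) →
    (∀ x a, ∃ Q : Finset I, Q.card ≤ q ∧
      ∀ a' : I → Bool, (∀ e ∈ Q, a' e = a e) → Out x a' = Out x a) →
    1 ≤ m → 2 * (Fintype.card X * q) ≤ 2 ^ m →
    open Classical in
    Ex unif (fun a : I → Bool => if ∀ x, (Out x a = true ↔ ∃ w, ∀ i, a (pos x w i) = true)
      then (1 : ℝ) else 0) ≤
      (2 / 3) ^ (Fintype.card X / 8) + (2 * (7 / 8) ^ 8) ^ (Fintype.card X / 8)

/-- T2: the test language separates the levels for all oracles off a small set (from T1). -/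
def St_nullT : Prop := ∀ (f : ℕ → ℝ) (g : ℕ → ℕ) (k : ℕ), Cond f →
    (∀ c : ℕ, ∀ᶠ n : ℕ in Filter.atTop, g n + n / 2 + c * Nat.log 2 n + c ≤ n ^ (k + 1)) →
    Null f {A : Oracle | IsNPg g A (tLang k A)}

/-- T3: the test language is in the level `k + 1`. -/
def St_tmem : Prop := ∀ (k : ℕ) (A : Oracle), IsNPg (fun n => n ^ (k + 1)) A (tLang k A)

end Pool.Agent.H752.GM
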